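import Pool.Agent.N322.TF.Defs
import Pool.Agent.N322.TF.Main

/-!
# MP_a6e7b1_co: the value of the position with 7 toads, 7 empty squares and 6 frogs

The value of `T^7 □^7 F^6` is strictly greater than `1` and different from `1*`. So the assertion of
Q1 (the value of `T^a □^a F^(a-1)` is always `1` or `1*`) is false. (By computer, `a = 7` is the first
counterexample.)

The proof: a set of about 17500 positions such that after every move of Right Left can move back
into the set is checked by the kernel.
-/

set_option autoImplicit false

namespace Pool.Agent.Results.MP_a6e7b1_co.SevenToads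

open Pool.Agent.N322.TF Pool.Agent.N322.TF.Game

/-- The value of `T^7 □^7 F^6` is neither `1` nor `1* = 1 + *`; Left wins `T^7 □^7 F^6 - 1` both as the
first and as the second player. Hence it is not true that the value of `T^a □^a F^(a-1)` is `1` or
`1*` for every `a ≥ 1`. -/
theorem result :
    ¬ Equal (value (start 7)) one ∧ ¬ Equal (value (start 7)) (add one star) ∧
    ((firstWins (add (value (start 7)) (neg one))).1 ∧
      ¬ (firstWins (add (value (start 7)) (neg one))).2) ∧
    ¬ ∀ a : ℕ, 1 ≤ a → Equal (value (start a)) one ∨ Equal (value (start a)) (add one star) := by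
  refine ⟨ne_one, ne_one_star, ⟨main1, main2⟩, fun h => ?_⟩
  rcases h 7 (by norm_num) with h | h
  · exact ne_one h
  · exact ne_one_star h

end Pool.Agent.Results.MP_a6e7b1_co.SevenToads
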